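import Mathlib

open scoped TensorProduct

namespace Q39.GU.P7core

/-- an étale algebra over `ℂ` with exactly one point has dimension one -/
theorem finrank_one (A : Type) [CommRing A] [Algebra ℂ A] [Algebra.Etale ℂ A] (τ : A →ₐ[ℂ] ℂ)
    (huniq : ∀ σ : A →ₐ[ℂ] ℂ, σ = τ) : Module.finrank ℂ A = 1 := by
  obtain ⟨I, hI, Ai, _, _, e, hAi⟩ := (Algebra.Etale.iff_exists_algEquiv_prod (K := ℂ) (A := A)).1 inferInstance
  have hb : ∀ i, Function.Bijective (algebraMap ℂ (Ai i)) := by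
    intro i
    have := (hAi i).1
    exact IsAlgClosed.algebraMap_bijective_of_isIntegral
  let r : ∀ i, Ai i ≃ₐ[ℂ] ℂ := fun i => (AlgEquiv.ofBijective (Algebra.ofId ℂ (Ai i)) (hb i)).symm
  let σ : ∀ i, A →ₐ[ℂ] ℂ := fun i => ((r i : Ai i →ₐ[ℂ] ℂ).comp (Pi.evalAlgHom ℂ Ai i)).comp (e : A →ₐ[ℂ] Π i, Ai i)
  classical
  have hsub : Subsingleton I := by
    refine ⟨fun i j => ?_⟩
    by_contra hij
    have h1 : σ i = σ j := by rw [huniq (σ i), huniq (σ j)]
    have h2 := DFunLike.congr_fun h1 (e.symm (Pi.single i 1))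
    simp [σ, Ne.symm hij] at h2
  have hne : Nonempty I := by
    by_contra h
    rw [not_nonempty_iff] at h
    have h1 : (1 : A) = 0 := e.injective (Subsingleton.elim _ _)
    have h2 := congrArg τ h1
    simp at h2
  obtain ⟨i⟩ := hne
  have : Unique I := ⟨⟨i⟩, fun j => Subsingleton.elim _ _⟩
  have h3 : Module.finrank ℂ A = Module.finrank ℂ (Π i, Ai i) := e.toLinearEquiv.finrank_eq
  have h4 : Module.finrank ℂ (Π i, Ai i) = Module.finrank ℂ (Ai i) :=
    ((LinearEquiv.piUnique ℂ Ai).finrank_eq).trans (by rw [Subsingleton.elim (default : I) i])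
  rw [h3, h4, (r i).toLinearEquiv.finrank_eq]
  exact Module.finrank_self ℂ

theorem main (D T : Type) [CommRing D] [Algebra ℂ D] [IsDomain D] [CommRing T]
    [Algebra ℂ T] [Algebra D T] [IsScalarTower ℂ D T] [Algebra.Etale D T] [Module.Finite D T]
    (δ : D →ₐ[ℂ] ℂ) (τ : T →ₐ[ℂ] ℂ) (hτ : ∀ d, τ (algebraMap D T d) = δ d)
    (hu : ∀ τ' : T →ₐ[ℂ] ℂ, (∀ d, τ' (algebraMap D T d) = δ d) → τ' = τ) :
    Function.Bijective (algebraMap D T) := by
  algebraize [(δ : D →+* ℂ)]
  have hsc : IsScalarTower ℂ D ℂ := by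
    refine IsScalarTower.of_algebraMap_eq ?_
    intro c
    change c = δ (algebraMap ℂ D c)
    rw [AlgHom.commutes]
    rfl
  have hflat : Module.Flat D T := inferInstance
  have hconst : ∀ p : PrimeSpectrum D, Module.rankAtStalk T p = Module.rankAtStalk T (⊥ : PrimeSpectrum D) :=
    fun p => (Module.rankAtStalk_eq_of_le_of_finite_of_flat T bot_le).symm
  -- the fibre
  have hτ' : ∃ t : ℂ ⊗[D] T →ₐ[ℂ] ℂ, ∀ σ : ℂ ⊗[D] T →ₐ[ℂ] ℂ, σ = t := by
    let τD : T →ₐ[D] ℂ := { (τ : T →+* ℂ) with commutes' := fun d => hτ d }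
    refine ⟨Algebra.TensorProduct.lift (AlgHom.id ℂ ℂ) τD (fun _ _ => Commute.all _ _), ?_⟩
    intro σ
    refine Algebra.TensorProduct.ext ?_ ?_
    · ext
    · have h1 : ((σ.restrictScalars D).comp
        (Algebra.TensorProduct.includeRight : T →ₐ[D] ℂ ⊗[D] T) : T →ₐ[D] ℂ).restrictScalars ℂ = τ := by
        apply hu
        intro d
        simp
        rfl
      ext x
      have h2 := DFunLike.congr_fun h1 x
      have h3 : σ (1 ⊗ₜ[D] x) = τ x := by simpa using h2
      simp only [AlgHom.coe_comp, Function.comp_apply, AlgHom.coe_restrictScalars',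
        Algebra.TensorProduct.includeRight_apply, Algebra.TensorProduct.lift_tmul, map_one, one_mul]
      exact h3
  obtain ⟨t, ht⟩ := hτ'
  have hfin := finrank_one (ℂ ⊗[D] T) t ht
  have h1 : Module.rankAtStalk (R := ℂ) (ℂ ⊗[D] T) (⊥ : PrimeSpectrum ℂ) = 1 := by
    rw [Module.rankAtStalk_eq_finrank_of_free, hfin]
    rfl
  rw [Module.rankAtStalk_baseChange, hconst] at h1
  apply Module.algebraMap_bijective_of_rankAtStalk
  ext p
  rw [hconst, h1]
  rfl

end Q39.GU.P7core
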