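import Pool.Agent.Q37.GU.Stm
import Pool.Agent.Q39.GU.P7core

open CategoryTheory CategoryTheory.Limits AlgebraicGeometry Topology
open scoped TensorProduct

namespace Q39.GU.P7

open Pool.Agent.W481 Pool.Agent.Q37.GU

theorem p7 : S_P7 := by
  intro D T _ _ _ _ _ _ _ _ _ δ τ hτ hu
  exact Q39.GU.P7core.main D T δ.hom τ.hom hτ (fun τ' h => hu τ' h)

end Q39.GU.P7
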